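import Mathlib

namespace Pool.Agent.H.MP_0ba956_nt

open Polynomial DihedralGroup

def act : DihedralGroup 4 → ZMod 4 → ZMod 4
  | r i, x => x + i
  | sr i, x => -(x + i)

lemma act_mul : ∀ g h : DihedralGroup 4, ∀ x, act (g * h) x = act g (act h x) := by decide

lemma act_inj : ∀ g h : DihedralGroup 4, (∀ x, act g x = act h x) → g = h := by decide

def e1 (g : DihedralGroup 4) : Bool := act g 0 = 0 ∨ act g 0 = 2

def e2 (g : DihedralGroup 4) : Bool := act g 0 + act g 1 = 1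

lemma gen : ∀ a b c : DihedralGroup 4, e1 a = false → e2 b = false → e1 c ≠ e2 c →
    ∀ g : DihedralGroup 4, ∃ x ∈ [a, b, c, a * b, a * c, b * c], ∃ y ∈ [1, a, b, c],
      ∃ i ∈ [0, 1, 2, 3], g = x ^ i * y := by decide +kernel

lemma core {L : Type*} [Field L] [Algebra ℚ L] [IsGalois ℚ L] [FiniteDimensional ℚ L]
    (u z : ℚ) (β γ : L) (h1 : (β ^ 2 - z) ^ 2 = u) (h2 : β ^ 2 + γ ^ 2 = 2 * z)
    (hu : ¬ IsSquare u) (hn : ¬ IsSquare (z ^ 2 - u)) (hun : ¬ IsSquare (u * (z ^ 2 - u)))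
    (hg : ∀ σ : Gal(L/ℚ), σ β = β → σ γ = γ → σ = 1) :
    Nonempty (Gal(L/ℚ) ≃* DihedralGroup 4) := by
  have : CharZero L := algebraRat.charZero L
  have mv : ∀ (x : L) (q : ℚ), x ^ 2 = q → ¬ IsSquare q → ∃ σ : Gal(L/ℚ), σ x ≠ x := by
    intro x q hx hq
    by_contra hc
    push Not at hc
    obtain ⟨t, rfl⟩ := (IsGalois.mem_range_algebraMap_iff_fixed x).2 hc
    refine hq ⟨t, ?_⟩
    rw [eq_ratCast] at hx
    rw [← sq]; exact_mod_cast hx.symm
  have h3 : (β * γ) ^ 2 = ((z ^ 2 - u : ℚ) : L) := by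
    push_cast; linear_combination (-1) * h1 + β ^ 2 * h2
  have h4 : β * γ ≠ 0 := fun h => hn ⟨0, by
    rw [h] at h3
    have : ((z ^ 2 - u : ℚ) : L) = ((0 * 0 : ℚ) : L) := by rw [← h3]; simp
    exact_mod_cast this⟩
  have h5 : β ^ 2 - z ≠ 0 := fun h => hu ⟨0, by
    rw [h] at h1
    have : ((u : ℚ) : L) = ((0 * 0 : ℚ) : L) := by rw [← h1]; simp
    exact_mod_cast this⟩
  have hβ : β ≠ 0 := left_ne_zero_of_mul h4
  have hγ : γ ≠ 0 := right_ne_zero_of_mul h4
  have n1 : β ≠ γ := fun h => h5 (by rw [← h] at h2; linear_combination h2 / 2)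
  have n2 : β ≠ -γ := fun h => h5 (by rw [h] at h2 ⊢; linear_combination h2 / 2)
  have n3 : β ≠ -β := fun h => hβ (by linear_combination h / 2)
  have n4 : γ ≠ -γ := fun h => hγ (by linear_combination h / 2)
  have n5 : γ ≠ -β := fun h => n2 (by rw [h, neg_neg])
  let B : ZMod 4 → L := ![β, γ, -β, -γ]
  have hB : Function.Injective B := by
    refine (List.nodup_ofFn (f := ![β, γ, -β, -γ])).1 ?_
    simp [n1, n2, n3, n4, n5, neg_eq_iff_eq_neg]
  have ex : ∀ σ : Gal(L/ℚ), ∃ g, ∀ i, σ (B i) = B (act g i) := by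
    intro σ
    have a1 := congrArg σ h1
    have a2 := congrArg σ h2
    simp only [map_pow, map_sub, map_add, map_mul, map_ratCast, map_ofNat] at a1 a2
    have a3 : (σ β - β) * (σ β + β) * ((σ β - γ) * (σ β + γ)) = 0 := by
      linear_combination a1 - h1 - (σ β ^ 2 - β ^ 2) * h2
    have key : ∀ g, σ β = B (act g 0) → σ γ = B (act g 1) → -σ β = B (act g 2) →
        -σ γ = B (act g 3) → ∃ g, ∀ i, σ (B i) = B (act g i) := fun g p q s t =>
      ⟨g, fun i => by
        fin_cases i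
        exacts [p, q, (map_neg σ β).trans s, (map_neg σ γ).trans t]⟩
    simp only [mul_eq_zero, sub_eq_zero, add_eq_zero_iff_eq_neg] at a3
    rcases a3 with (a | a) | (a | a)
    · rcases sq_eq_sq_iff_eq_or_eq_neg.1 (show σ γ ^ 2 = γ ^ 2 by rw [a] at a2; linear_combination a2 - h2)
        with b | b
      · exact key (r 0) a b (congrArg _ a) (congrArg _ b)
      · exact key (sr 0) a b (congrArg _ a) (by rw [b, neg_neg]; rfl)
    · rcases sq_eq_sq_iff_eq_or_eq_neg.1 (show σ γ ^ 2 = γ ^ 2 by rw [a] at a2; linear_combination a2 - h2)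
        with b | b
      · exact key (sr 2) a b (by rw [a, neg_neg]; rfl) (congrArg _ b)
      · exact key (r 2) a b (by rw [a, neg_neg]; rfl) (by rw [b, neg_neg]; rfl)
    · rcases sq_eq_sq_iff_eq_or_eq_neg.1 (show σ γ ^ 2 = β ^ 2 by rw [a] at a2; linear_combination a2 - h2)
        with b | b
      · exact key (sr 3) a b (congrArg _ a) (congrArg _ b)
      · exact key (r 1) a b (congrArg _ a) (by rw [b, neg_neg]; rfl)
    · rcases sq_eq_sq_iff_eq_or_eq_neg.1 (show σ γ ^ 2 = β ^ 2 by rw [a] at a2; linear_combination a2 - h2)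
        with b | b
      · exact key (r 3) a b (by rw [a, neg_neg]; rfl) (congrArg _ b)
      · exact key (sr 1) a b (by rw [a, neg_neg]; rfl) (by rw [b, neg_neg]; rfl)
  choose φ hφ using ex
  let Φ : Gal(L/ℚ) →* DihedralGroup 4 := MonoidHom.mk' φ fun σ τ => act_inj _ _ fun i => hB (by
    rw [← hφ, act_mul, ← hφ, ← hφ]; rfl)
  have c1 : ∀ g, B (act g 0) ^ 2 - z = if e1 g then β ^ 2 - z else -(β ^ 2 - z) := by
    rintro (i | i) <;> fin_cases i
    exacts [rfl, show γ ^ 2 - z = -(β ^ 2 - z) by linear_combination h2,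
      show (-β) ^ 2 - z = β ^ 2 - z by ring,
      show (-γ) ^ 2 - z = -(β ^ 2 - z) by linear_combination h2, rfl,
      show (-γ) ^ 2 - z = -(β ^ 2 - z) by linear_combination h2,
      show (-β) ^ 2 - z = β ^ 2 - z by ring,
      show γ ^ 2 - z = -(β ^ 2 - z) by linear_combination h2]
  have c2 : ∀ g, B (act g 0) * B (act g 1) = if e2 g then β * γ else -(β * γ) := by
    rintro (i | i) <;> fin_cases i
    exacts [rfl, show γ * -β = -(β * γ) by ring, show -β * -γ = β * γ by ring,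
      show -γ * β = -(β * γ) by ring, show β * -γ = -(β * γ) by ring,
      show -γ * -β = β * γ by ring, show -β * γ = -(β * γ) by ring, show γ * β = β * γ by ring]
  have d1 : ∀ σ : Gal(L/ℚ), σ (β ^ 2 - z) = if e1 (φ σ) then β ^ 2 - z else -(β ^ 2 - z) := by
    intro σ
    rw [← c1, ← hφ, map_sub, map_pow, map_ratCast]; rfl
  have d2 : ∀ σ : Gal(L/ℚ), σ (β * γ) = if e2 (φ σ) then β * γ else -(β * γ) := by
    intro σ
    rw [← c2, ← hφ, ← hφ, map_mul]; rfl
  refine ⟨MulEquiv.ofBijective Φ ⟨(injective_iff_map_eq_one _).2 fun σ hσ => ?_, fun g => ?_⟩⟩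
  · have : φ σ = r 0 := hσ
    exact hg σ (by have a := hφ σ 0; rwa [this] at a) (by have a := hφ σ 1; rwa [this] at a)
  · obtain ⟨a, ha⟩ := mv _ _ h1 hu
    obtain ⟨b, hb⟩ := mv _ _ h3 hn
    obtain ⟨c, hc⟩ := mv ((β ^ 2 - z) * (β * γ)) _ (by rw [mul_pow, h1, h3, ← Rat.cast_mul]) hun
    rw [d1] at ha
    rw [d2] at hb
    rw [map_mul, d1, d2] at hc
    obtain ⟨x, hx, y, hy, i, -, rfl⟩ := gen (φ a) (φ b) (φ c) (by by_contra h; simp_all)
      (by by_contra h; simp_all) (fun h => hc (by rw [h]; split_ifs <;> ring)) g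
    have ma : φ a ∈ Φ.range := ⟨a, rfl⟩
    have mb : φ b ∈ Φ.range := ⟨b, rfl⟩
    have mc : φ c ∈ Φ.range := ⟨c, rfl⟩
    change _ ∈ Φ.range
    simp only [List.mem_cons, List.not_mem_nil, or_false] at hx hy
    refine mul_mem (pow_mem ?_ _) ?_
    · rcases hx with rfl | rfl | rfl | rfl | rfl | rfl <;>
        first | assumption | exact mul_mem ‹_› ‹_›
    · rcases hy with rfl | rfl | rfl | rfl <;> first | assumption | exact one_mem _

lemma dih (u z : ℚ) (w : AlgebraicClosure ℚ) (hw : w ^ 2 = u)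
    (hu : ¬ IsSquare u) (hn : ¬ IsSquare (z ^ 2 - u)) (hun : ¬ IsSquare (u * (z ^ 2 - u))) :
    ∃ L : IntermediateField ℚ (AlgebraicClosure ℚ), IsGalois ℚ L ∧
      Nonempty (Gal(L/ℚ) ≃* DihedralGroup 4) ∧
      ∃ β ∈ L, ∃ γ ∈ L, β ^ 2 = z + w ∧ γ ^ 2 = z - w := by
  obtain ⟨β, hβ⟩ := IsAlgClosed.exists_pow_nat_eq (z + w) two_pos
  obtain ⟨γ, hγ⟩ := IsAlgClosed.exists_pow_nat_eq (z - w) two_pos
  set p : ℚ[X] := (X ^ 2 - C z) ^ 2 - C u with hp
  have hp0 : p ≠ 0 := by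
    have : p.Monic := by rw [hp]; monicity!
    exact this.ne_zero
  have hr : ∀ x : AlgebraicClosure ℚ, x ∈ p.rootSet _ ↔ (x ^ 2 - z) ^ 2 = u := by
    intro x
    rw [mem_rootSet_of_ne hp0]
    simp [hp, sub_eq_zero]
  set L := IntermediateField.adjoin ℚ (p.rootSet (AlgebraicClosure ℚ)) with hL
  have : IsSplittingField ℚ L p := IntermediateField.adjoin_rootSet_isSplittingField
    (IsAlgClosed.splits (p.map (algebraMap ℚ (AlgebraicClosure ℚ))))
  have := IsSplittingField.finiteDimensional L p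
  have := Normal.of_isSplittingField (F := ℚ) (E := L) p
  have : IsGalois ℚ L := ⟨⟩
  have mβ : β ∈ L := IntermediateField.subset_adjoin _ _ ((hr β).2 (by rw [hβ, ← hw]; ring))
  have mγ : γ ∈ L := IntermediateField.subset_adjoin _ _ ((hr γ).2 (by rw [hγ, ← hw]; ring))
  refine ⟨L, this, core u z ⟨β, mβ⟩ ⟨γ, mγ⟩ (Subtype.ext ?_) (Subtype.ext ?_) hu hn hun
    fun σ h1 h2 => ?_, β, mβ, γ, mγ, hβ, hγ⟩
  · push_cast; rw [hβ, ← hw]; ring
  · push_cast; rw [hβ, hγ]; exact (by ring : z + w + (z - w) = (2 : AlgebraicClosure ℚ) * z)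
  · refine AlgEquiv.coe_toAlgHom_injective (IntermediateField.adjoin_algHom_ext ℚ fun x hx => ?_)
    have a3 : (x - β) * (x + β) * ((x - γ) * (x + γ)) = 0 := by
      linear_combination (hr x).1 hx - hw - (x ^ 2 - γ ^ 2) * hβ - (x ^ 2 - z - w) * hγ
    simp only [mul_eq_zero, sub_eq_zero, add_eq_zero_iff_eq_neg] at a3
    rcases a3 with (rfl | rfl) | (rfl | rfl)
    · exact h1
    · exact (map_neg σ ⟨β, mβ⟩).trans (congrArg _ h1)
    · exact h2
    · exact (map_neg σ ⟨γ, mγ⟩).trans (congrArg _ h2)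

end Pool.Agent.H.MP_0ba956_nt
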